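import Mathlib
import Pool.Agent.R256.Thr6

/-!
# MP_74ce82: bounds for the essential self-adjointness threshold `c_n`

For every `n ≥ 1` the threshold `c_n` satisfies
`2 n^2 / π < c_n^{1/(2n)} < n / sin (π/(2n))`.
-/

set_option autoImplicit false

open Polynomial

namespace Pool.Agent.Results.MP_74ce82_an.ThresholdBounds

/-- The polynomial `D_{2n}(z;c) = ∏_{j=1}^{2n} (z - (j-1)) + (-1)^n c`. -/
noncomputable def D (n : ℕ) (c : ℝ) : ℂ[X] :=
  ∏ j ∈ Finset.range (2 * n), (X - C (j : ℂ)) + C ((-1 : ℂ) ^ n * (c : ℂ))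

open Classical in
/-- The number of roots of `D_{2n}(·;c)` in `ℂ`, counted with multiplicity, with real part
`> -1/2`. -/
noncomputable def rootCount (n : ℕ) (c : ℝ) : ℕ :=
  ((D n c).roots.filter (fun z : ℂ => -1 / 2 < z.re)).card

/-- `cn` is the threshold `c_n`: exactly `n` of the `2n` roots of `D_{2n}(·;c)` (counted with
multiplicity) have real part `> -1/2` if and only if `c ≥ cn`. (Exactly `n` such roots is the
algebraic criterion for essential self-adjointness of `τ_{2n}(c)` on `C_0^∞((0,∞))`.) -/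
def IsThreshold (n : ℕ) (cn : ℝ) : Prop := ∀ c : ℝ, rootCount n c = n ↔ cn ≤ c

/-- **Positive answer to Q1.** For every `n ≥ 1` the threshold `c_n` is positive and
`2 n^2 / π < c_n^{1/(2n)} < n / sin (π/(2n))`. -/
theorem result (n : ℕ) (hn : 1 ≤ n) (cn : ℝ) (h : IsThreshold n cn) :
    0 < cn ∧ 2 * (n : ℝ) ^ 2 / Real.pi < cn ^ (1 / (2 * (n : ℝ))) ∧
      cn ^ (1 / (2 * (n : ℝ))) < n / Real.sin (Real.pi / (2 * n)) :=
  Pool.Agent.R256.Thr.main hn h

end Pool.Agent.Results.MP_74ce82_an.ThresholdBounds
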